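import Pool.Agent.H78.UN2.Main
import Pool.Agent.H78.UP.Fin
import Pool.Agent.H78.UR.Defs

/-! The main theorem for derivations with little persistent memory. -/

namespace Pool.Agent.H78.UR

open Finset Pool.Agent.H78.UN Pool.Agent.H78.UN2 Pool.Agent.H78.UP

theorem mainr_of (hABP : T_ABR) (hBAL : T_BAL) : T_MAINR := by
  classical
  intro ε hε
  obtain ⟨A, hA22, hAε⟩ : ∃ A : ℕ, 2 ≤ A ∧ (20 : ℝ) ≤ ε * A := by
    refine ⟨max 2 ⌈20 / ε⌉₊, le_max_left _ _, ?_⟩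
    have h1 : 20 / ε ≤ (max 2 ⌈20 / ε⌉₊ : ℕ) :=
      (Nat.le_ceil _).trans (by exact_mod_cast le_max_right _ _)
    rwa [div_le_iff₀' hε] at h1
  have hA : 1 ≤ A := by omega
  obtain ⟨j, hj⟩ : ∃ j, j = 36 * A ^ 2 := ⟨_, rfl⟩
  have hA2 : 1 ≤ A ^ 2 := Nat.one_le_pow _ _ hA
  have hj1 : 1 ≤ j := by omega
  have hjQ : 36 * A ^ 2 ≤ 2 ^ j := by rw [← hj]; exact Nat.lt_two_pow_self.le
  obtain ⟨C0, n0, hC0, hAB⟩ := hABP A hA
  obtain ⟨T, hT⟩ : ∃ T, T = pT2 A j C0 := ⟨_, rfl⟩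
  refine ⟨2 ^ T, max n0 (2 * A + 2), ?_⟩
  intro n hn k hk1 hk2
  have hT2 : pT2 A j C0 ≤ T := hT.ge
  have hT' : pT A j C0 ≤ T := (Nat.le_add_right _ _).trans hT2
  have hnn0 : n0 ≤ n := (le_max_left _ _).trans hn
  have hnA2 : 2 * A + 2 ≤ n := (le_max_right _ _).trans hn
  have hn2 : 2 ≤ n := by omega
  have hnA : 2 * A ≤ n := by omega
  have hlog : 1 ≤ Nat.log 2 n := (facts hA hj1 hT' hn2 hk1 hk2).1
  obtain ⟨s1, s2, s3, s4, s5⟩ := small hA hε hAε hj1 hT' hn2 hk1 hk2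
  obtain ⟨c1, c2, c3, c4, c5, c6, c7, c8, c9, c10, c11, c12, c13⟩ :=
    conds hA hj1 hjQ hT' hn2 hnA hk1 hk2
  have hlam2 := pLam_two (j := j) hA
  obtain ⟨F, hF2, hF1, hF3, hF4⟩ := hAB n k (pp A n k) (n / pH A j) (n / A) (pr A j k) (pl A j k)
    (pLam A j) (2 * pd A j) hnn0 (by omega) c1 (by omega) c2 c3 c4 c5 c8 c9 c10 c11
    (lam_cond hA hj1 hT' hn2 hk1 hk2) c12 c13
  have hunsat : ∀ z, ∃ C ∈ F, Falsified C z := by
    intro z
    have h1 := hF3 z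
    have h2 : 0 < (A - 1) * (C0 * n) :=
      Nat.mul_pos (by omega) (Nat.mul_pos (by omega) (by omega))
    have h3 : 0 < (F.filter (fun C => Falsified C z)).card := by
      rcases Nat.eq_zero_or_pos (F.filter (fun C => Falsified C z)).card with h4 | h4
      · rw [h4, Nat.mul_zero] at h1
        omega
      · exact h4
    obtain ⟨C, hC⟩ := Finset.card_pos.1 h3
    exact ⟨C, (Finset.mem_filter.1 hC).1, (Finset.mem_filter.1 hC).2⟩
  refine ⟨F, hF2, clauses hA hlog s5 s4 hF1, hunsat, fun z => gap_ineq hA hAε hF1 (hF3 z), ?_⟩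
  intro B q s D S hB hq hs hBk hD Z σ R hcost v
  obtain ⟨t, m, b, f, ht, hm, hDm, hqp, hBt, htn, hjf, hbb, hf⟩ :=
    boundsP hA hj1 hT2 hn2 hk1 hk2 hB hq hs hBk hD
  have hexpo := expo (f := 2 * f) (t := t) hA hj1 hjQ hT' hn2 hnA hk1 hk2 hB hBk hBt (by
    calc 2 * j * A * (2 * f) = 4 * (j * A * f) := by ring
      _ ≤ 4 * n := Nat.mul_le_mul_left _ hjf)
  have hQ0 : 0 < (2 ^ j) ^ n := by positivity
  obtain ⟨Bl, hBld⟩ : ∃ Bl, Bl = (2 ^ j) ^ f * (2 ^ j + 1) ^ n / (2 ^ j) ^ n := ⟨_, rfl⟩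
  have hBall : ∀ z0 : Fin n → Bool, (Finset.univ.filter
      (fun zs => dis z0 zs ≤ f)).card ≤ Bl := by
    intro z0
    rw [hBld, Nat.le_div_iff_mul_le hQ0]
    have := hBAL (Fin n) f (2 ^ j) z0 Nat.one_le_two_pow
    rwa [Fintype.card_fin] at this
  have hfin := hF4 t m B q s b f D S Bl (by omega) hqp ht hm hDm hbb hf hBall Z σ R v
  have hBl : (Bl : ℝ) ≤ (2 : ℝ) ^ ((j : ℝ) * f + (2 / 2 ^ j) * (n : ℝ)) :=
    from_ball Bl j n f (by rw [hBld]; exact Nat.div_mul_le_self _ _)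
  have hBl2 : ((Bl * 2 ^ f : ℕ) : ℝ) ≤
      (2 : ℝ) ^ ((j : ℝ) * ((2 * f : ℕ) : ℝ) + (2 / 2 ^ j) * (n : ℝ)) := by
    have e1 : ((Bl * 2 ^ f : ℕ) : ℝ) = (Bl : ℝ) * (2 : ℝ) ^ (f : ℝ) := by
      rw [Real.rpow_natCast]
      push_cast
      ring
    have hj1r : (1 : ℝ) ≤ j := by exact_mod_cast hj1
    have hf0 : (0 : ℝ) ≤ f := by positivity
    rw [e1]
    calc (Bl : ℝ) * (2 : ℝ) ^ (f : ℝ)
        ≤ (2 : ℝ) ^ ((j : ℝ) * f + (2 / 2 ^ j) * (n : ℝ)) * (2 : ℝ) ^ (f : ℝ) :=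
          mul_le_mul_of_nonneg_right hBl (by positivity)
      _ = (2 : ℝ) ^ ((j : ℝ) * f + (2 / 2 ^ j) * (n : ℝ) + f) := by
          rw [← Real.rpow_add (by norm_num)]
      _ ≤ _ := by
          refine Real.rpow_le_rpow_of_exponent_le (by norm_num) ?_
          push_cast
          nlinarith
  have hfin' : (Finset.univ.filter (fun z => z ∈ R.A v)).card * 2 ^ k ≤
        (Bl * 2 ^ f) * (S * ((t + 1) * B ^ t) *
          (((Cr k (2 * pl A j k + 1) * (C0 * n)) * ((t + 1) * (B + 1)) * Cr k (pr A j k) ^ 2) ^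
            pp A n k * 2 ^ (n / A))) * 2 ^ k +
        (Bl * 2 ^ f) * (∑ u, (R.E u).card) * 2 ^ k +
        (Cr k (2 * pl A j k + 1) * (C0 * n)) * Cr k (pr A j k) ^ 2 * 2 ^ n := by
    refine hfin.trans ?_
    refine Nat.add_le_add_right (Nat.add_le_add_left ?_ _) _
    refine Nat.mul_le_mul_right _ (Nat.mul_le_mul_right _ ?_)
    exact Nat.le_mul_of_pos_right _ (by positivity)
  have hCr := from_ball (Cr k (pr A j k)) j k (pr A j k)
    (Cr_bound k (pr A j k) (2 ^ j) Nat.one_le_two_pow)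
  have hnlt : n + 1 ≤ 2 ^ (Nat.log 2 n + 1) := Nat.lt_pow_succ_log_self (by norm_num) n
  have hBlt : B + 1 ≤ 2 ^ (Nat.log 2 B + 1) := Nat.lt_pow_succ_log_self (by norm_num) B
  have e2 : t + 1 ≤ 2 ^ (Nat.log 2 n + 1) := by omega
  have e3 : B ^ t ≤ 2 ^ ((Nat.log 2 B + 1) * t) := by
    rw [pow_mul]
    exact Nat.pow_le_pow_left (by omega) _
  have e5 : (t + 1) * (B + 1) ≤ 2 ^ (Nat.log 2 n + 1 + (Nat.log 2 B + 1)) := by
    rw [pow_add]
    exact Nat.mul_le_mul e2 hBlt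
  have hAr : (0 : ℝ) < A := by exact_mod_cast hA
  have hAr1 : (1 : ℝ) ≤ A := by exact_mod_cast hA
  have hcost' : ((S : ℝ) + ((∑ u, (R.E u).card : ℕ) : ℝ)) ≤ (2 : ℝ) ^ ((1 - ε) * n) := by
    have h1 : (R.cost : ℝ) = (S : ℝ) + ((∑ u, (R.E u).card : ℕ) : ℝ) := by
      unfold RDer.cost
      exact Nat.cast_add _ _
    rw [← h1]
    exact hcost.le
  refine final_ineq (x1 := (j : ℝ) * ((2 * f : ℕ) : ℝ) + (2 / 2 ^ j) * (n : ℝ))
    (x6 := (j : ℝ) * pr A j k + (2 / 2 ^ j) * (k : ℝ)) (by positivity) hfin' hBl2 hCr e2 e3 c6 e5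
    ?_ ?_ hcost' s1 s2 s3
  · refine le_of_mul_le_mul_left ?_ hAr
    have h1 := hexpo.1
    have hn0 : (0 : ℝ) ≤ n := by positivity
    have h2 : 10 * (n : ℝ) ≤ A * (ε * n / 2) := by
      calc 10 * (n : ℝ) = 20 * n / 2 := by ring
        _ ≤ (ε * A) * n / 2 := by
            refine div_le_div_of_nonneg_right ?_ (by norm_num)
            exact mul_le_mul_of_nonneg_right hAε hn0
        _ = A * (ε * n / 2) := by ring
    refine le_trans (le_of_eq ?_) (h1.trans h2)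
    ring
  · refine hexpo.2.trans ?_
    rw [div_le_div_iff₀ (by positivity) (by norm_num)]
    have e1 : (A : ℝ) ≤ A ^ 2 := by nlinarith
    have e6 : (20 : ℝ) ≤ ε * A ^ 2 := hAε.trans (mul_le_mul_of_nonneg_left e1 hε.le)
    have hk0 : (0 : ℝ) ≤ k := by positivity
    calc (k : ℝ) * 60 = 20 * (k * 3) := by ring
      _ ≤ (ε * A ^ 2) * (k * 3) := mul_le_mul_of_nonneg_right e6 (by positivity)
      _ = ε * k * (3 * A ^ 2) := by ring

end Pool.Agent.H78.UR
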