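import Mathlib

/-!
# Derivations with little persistent memory: the definitions of the final statement
-/

namespace Pool.Agent.H78.UR.Lang

/-- A clause is a finite set of literals; a literal is a pair (variable, sign). -/
abbrev Clause (V : Type) : Type := Finset (V × Bool)

/-- The assignment `z` falsifies every literal of `C`. -/
def Falsified {V : Type} (C : Clause V) (z : V → Bool) : Prop := ∀ l ∈ C, z l.1 ≠ l.2

/-- The set `A` of assignments is monotone towards `o` in the variables of `W`, and it does not
depend on the other variables: if `z` is in `A` and `z'` is obtained from `z` by replacing the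
values at some variables of `W` by those of `o`, and by changing the values of variables outside
`W` in any way, then `z'` is in `A`. -/
def Unate {V : Type} (A : Set (V → Bool)) (W : Finset V) (o : V → Bool) : Prop :=
  ∀ z ∈ A, ∀ z' : V → Bool, (∀ x ∈ W, z' x = z x ∨ z' x = o x) → z' ∈ A

/-- `A` is the set of the 0/1 assignments which violate a linear inequality `∑ x, a x * x ≥ b`
in the variables `W`, and `o` gives the signs of its coefficients: `o x` is the value of `x` which
makes the left side smaller. -/
def Ineq {V : Type} [Fintype V] (A : Set (V → Bool)) (W : Finset V) (o : V → Bool) : Prop :=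
  ∃ (a : V → ℝ) (b : ℝ), (∀ x, x ∉ W → a x = 0) ∧ (∀ x, a x < 0 → o x = true) ∧
    (∀ x, 0 < a x → o x = false) ∧ A = {z | ∑ x, (if z x = true then a x else 0) < b}

/-- A semantic dag-like derivation from the CNF formula `F` with `S` lines. Here `Z` is a set of
variables and `σ` is an assignment.

* `A v` is the set of the assignments which falsify line `v`.
* `W v` contains the variables of line `v`, and the line is monotone in each of them: `o v x` is
  the value of `x ∈ W v` which helps to falsify the line. The pairs `(x, o v x)` with `x ∈ W v`
  are called the literals of line `v`.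
* `rigid`: the literal `(x, o v x)` of line `v` is free if `x ∈ Z` and `o v x ≠ σ x`; then every
  assignment which falsifies line `v` has the value `o v x` at `x` (as in a clause).
* `E v` is a set of assignments which are ignored when line `v` is inferred (brute force).
* `P v` is the set of the premises of line `v`: at most `B` earlier lines; every line can be used
  many times.
* `rule`: outside `E v`, line `v` either follows from at most `q` clauses of `F`, or it follows
  from its premises.
* `pers`: if `u 0, …, u D` are consecutive lines on a path (each one is a premise of the one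
  before), then at most `s` literals which are not free belong to all of them. -/
structure Der {V : Type} [Fintype V] (F : Finset (Clause V)) (Z : Finset V) (σ : V → Bool)
    (B q s D S : ℕ) where
  A : Fin S → Set (V → Bool)
  W : Fin S → Finset V
  o : Fin S → V → Bool
  line : ∀ v, Unate (A v) (W v) (o v) ∨ Ineq (A v) (W v) (o v)
  rigid : ∀ v, ∀ x ∈ W v, x ∈ Z → o v x ≠ σ x → ∀ z ∈ A v, z x = o v x
  E : Fin S → Finset (V → Bool)
  P : Fin S → Finset (Fin S)
  prem : ∀ v, (P v).card ≤ B ∧ ∀ a ∈ P v, a < v
  rule : ∀ v,
    (∃ Q : Finset (Clause V), Q ⊆ F ∧ Q.card ≤ q ∧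
      ∀ z ∈ A v, z ∉ E v → ∃ C ∈ Q, Falsified C z) ∨
    (∀ z ∈ A v, z ∉ E v → ∃ a ∈ P v, z ∈ A a)
  pers : ∀ u : ℕ → Fin S, (∀ i < D, u (i + 1) ∈ P (u i)) →
    Set.ncard {x : V | ∀ i ≤ D, x ∈ W (u i) ∧ o (u i) x = o (u 0) x ∧
      (x ∈ Z → o (u i) x = σ x)} ≤ s

/-- The cost of a derivation: the number of lines plus the number of assignments treated by brute
force. -/
def Der.cost {V : Type} [Fintype V] {F : Finset (Clause V)} {Z : Finset V} {σ : V → Bool}
    {B q s D S : ℕ} (R : Der F Z σ B q s D S) : ℕ := S + ∑ v, (R.E v).card

end Pool.Agent.H78.UR.Lang
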