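import Pool.Agent.H79.UP.Steps
import Pool.Agent.H78.UR.Defs

/-! The steps of the adversary with resets of literals. -/

set_option linter.unusedSectionVars false

namespace Pool.Agent.H78.UR

open Finset Pool.Agent.H78.UN Pool.Agent.H79.UP

section
variable {V : Type} [DecidableEq V] {M S : ℕ}

/-- Repair of the new constraints. -/
theorem repairR (hFIX : T_FIX) {p r l : ℕ} (I : Inst V M l)
    {A : Fin S → Set (V → Bool)} {W : Fin S → Finset V} {o : Fin S → V → Bool}
    (h5 : E5 I.sc p r l) (hl : 1 ≤ l) (hlr : 2 * l ≤ r)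
    {m : Fin S → Finset V} {Z : Finset V} {σ : V → Bool} (hA : LinesR A W o m Z σ)
    {a : Fin S} {zs : V → Bool} {Fs F : Finset V} {J N : Finset (Fin M)}
    (hz : flp zs F ∈ A a) (htow : ∀ x ∈ F, x ∈ Z → zs x ≠ σ x) (hF : F ⊆ Fs ∪ VJ I.sc J)
    (hsat : ∀ c ∈ J, ¬ I.vio c (flp zs F))
    (hfree : ∀ c, c ∉ J → r ≤ (I.sc c \
      (ag (CW Fs W a) (co Fs zs o a) zs ∪ VJ I.sc J)).card)
    (hNJ : Disjoint N J) (hp : N.card ≤ p) :
    ∃ Y : Finset V, Disjoint Y (Fs ∪ VJ I.sc J) ∧ Y ⊆ VJ I.sc N ∧ flp zs (F ∪ Y) ∈ A a ∧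
      (∀ x ∈ F ∪ Y, x ∈ Z → zs x ≠ σ x) ∧ (∀ c ∈ J ∪ N, ¬ I.vio c (flp zs (F ∪ Y))) ∧
      Y.card ≤ kap r l * N.card := by
  obtain ⟨Y, hY1, hY2, hY3, hY4⟩ := hFIX V M p r l I N
    (ag (CW Fs W a) (co Fs zs o a) zs ∪ VJ I.sc J) (flp zs F) h5 hl hlr hp
    (fun c hc => hfree c (Finset.disjoint_left.1 hNJ hc))
  rw [ag_CW] at hY1
  have hd : Disjoint Y (Fs ∪ VJ I.sc J) := by
    refine Finset.disjoint_of_subset_right ?_ hY1
    intro x hx
    rcases Finset.mem_union.1 hx with h | h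
    · exact Finset.mem_union_left _ (Finset.mem_union_right _ h)
    · exact Finset.mem_union_right _ h
  have hdF : Disjoint Y F := Finset.disjoint_of_subset_right hF hd
  have hdag : Disjoint Y (ag (W a) (o a) zs) := by
    refine Finset.disjoint_of_subset_right ?_ hY1
    intro x hx
    exact Finset.mem_union_left _ (Finset.mem_union_left _ hx)
  refine ⟨Y, hd, hY2, flp_union_mem hA.uni hz hdF hdag, ?_, ?_, hY4⟩
  · intro x hx hxZ
    rcases Finset.mem_union.1 hx with h | h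
    · exact htow x h hxZ
    · intro he
      have hxF : x ∉ F := fun h2 => Finset.disjoint_left.1 hdF h h2
      have h3 : flp zs F x = zs x := by simp [flp, hxF]
      obtain ⟨h4, h5⟩ := hA.dir a _ hz x hxZ (by rw [h3]; exact he)
      exact Finset.disjoint_left.1 hdag h (mem_ag.2 ⟨h4, by rw [h5]; exact he⟩)
  intro c hc hv
  rcases Finset.mem_union.1 hc with hcJ | hcN
  · refine hsat c hcJ (I.loc c _ _ ?_ hv)
    intro x hx
    have h1 : x ∉ Y := fun h => Finset.disjoint_left.1 hd h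
      (Finset.mem_union_right _ (sc_sub_VJ hcJ hx))
    exact flp_apply_eq (by simp [h1])
  · rw [← flp_flp hdF] at hv
    exact hY3 c hcN hv

/-- The common part of the start of a phase and of a step. -/
theorem coreR (hFIX : T_FIX) {p r l : ℕ} (I : Inst V M l)
    {A : Fin S → Set (V → Bool)} {W : Fin S → Finset V} {o : Fin S → V → Bool}
    (h5 : E5 I.sc p r l) (hl : 1 ≤ l) (hlr : 2 * l ≤ r)
    {m : Fin S → Finset V} {Z : Finset V} {σ : V → Bool} (hA : LinesR A W o m Z σ)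
    {a : Fin S} {zs : V → Bool} {Fs F Y : Finset V} {J J' : Finset (Fin M)}
    {Q : Fin M → Finset V}
    (hz : flp zs F ∈ A a) (htow : ∀ x ∈ F, x ∈ Z → zs x ≠ σ x) (hFY : F ⊆ Fs ∪ Y)
    (hYJ : Y ⊆ VJ I.sc J)
    (hYc : Y.card ≤ kap r l * J.card)
    (hsat : ∀ c ∈ J, ¬ I.vio c (flp zs F))
    (hacc : ∀ c ∈ J, Acc I.sc I.vio l zs c (Fs ∪ Y) F (Q c))
    (hfree : ∀ c, c ∉ J → r ≤ (I.sc c \
      (ag (CW Fs W a) (co Fs zs o a) zs ∪ VJ I.sc J)).card)
    (hJ : J ⊆ J') (hp : J'.card ≤ p) :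
    ∃ (F' Y' : Finset V) (Q' : Fin M → Finset V), flp zs F' ∈ A a ∧
      (∀ x ∈ F', x ∈ Z → zs x ≠ σ x) ∧ F' ⊆ Fs ∪ Y' ∧
      Y' ⊆ VJ I.sc J' ∧ Y'.card ≤ kap r l * J'.card ∧ (∀ c ∈ J', ¬ I.vio c (flp zs F')) ∧
      (∀ c ∈ J', Acc I.sc I.vio l zs c (Fs ∪ Y') F' (Q' c)) ∧
      F' \ Y' ⊆ F \ Y ∧ F' ⊆ mz m o zs a ∪ J'.biUnion Q' ∧ J.biUnion Q ⊆ J'.biUnion Q' := by
  classical
  obtain ⟨Y0, hY1, hY2, hY3, hYt, hY4, hY5⟩ := repairR hFIX I h5 hl hlr hA (N := J' \ J) hz
    htow (hFY.trans (Finset.union_subset_union (Finset.Subset.refl _) hYJ)) hsat hfree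
    Finset.sdiff_disjoint ((Finset.card_le_card Finset.sdiff_subset).trans hp)
  rw [Finset.union_sdiff_of_subset hJ] at hY4
  obtain ⟨F', hF1, hF2, hF3, hF4⟩ := reset I.vio zs (F ∪ Y0) (mz m o zs a) J' hY4
  have hsubX : F' ⊆ Fs ∪ (Y ∪ Y0) := by
    intro x hx
    rcases Finset.mem_union.1 (hF1 hx) with h | h
    · rcases Finset.mem_union.1 (hFY h) with h | h
      · exact Finset.mem_union_left _ h
      · exact Finset.mem_union_right _ (Finset.mem_union_left _ h)
    · exact Finset.mem_union_right _ (Finset.mem_union_right _ h)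
  refine ⟨F', Y ∪ Y0, fun c => (if c ∈ J then Q c else ∅) ∪ Nb I.vio zs F' (mz m o zs a) c,
    ?_, fun x hx => hYt x (hF1 hx), hsubX, ?_, ?_, hF3, ?_, ?_, ?_, ?_⟩
  · refine hA.res a _ hY3 _ fun x hx => ?_
    rw [flp_ne_iff] at hx
    have hxF : x ∈ F ∪ Y0 := by
      by_contra h1
      exact hx ⟨fun h => hF1 h, fun h => absurd h h1⟩
    have hxF' : x ∉ F' := fun h1 => hx ⟨fun _ => hxF, fun _ => h1⟩
    refine ⟨?_, fun hxZ => ?_⟩
    · by_cases h1 : x ∈ m a
      · right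
        have h2 : flp zs F' x = zs x := by simp [flp, hxF']
        rw [h2]
        by_contra h3
        exact hxF' (hF2 (Finset.mem_inter.2 ⟨hxF, Finset.mem_filter.2 ⟨h1, fun h4 => h3 h4.symm⟩⟩))
      · exact Or.inl h1
    have h2 := hYt x hxF hxZ
    have h3 : flp zs (F ∪ Y0) x = !(zs x) := by
      unfold flp
      rw [if_pos hxF]
    rw [h3]
    revert h2
    cases zs x <;> cases σ x <;> simp
  · refine Finset.union_subset (hYJ.trans (VJ_mono hJ)) (hY2.trans (VJ_mono ?_))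
    exact Finset.sdiff_subset
  · refine (Finset.card_union_le _ _).trans ?_
    rw [Finset.card_sdiff_of_subset hJ] at hY5
    have h1 := Finset.card_le_card hJ
    calc Y.card + Y0.card ≤ kap r l * J.card + kap r l * (J'.card - J.card) :=
          Nat.add_le_add hYc hY5
      _ = kap r l * J'.card := by rw [← Nat.mul_add, Nat.add_sub_cancel' h1]
  · intro c hc
    have hbase : Acc I.sc I.vio l zs c (Fs ∪ (Y ∪ Y0)) F' (if c ∈ J then Q c else ∅) := by
      by_cases hcJ : c ∈ J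
      · rw [if_pos hcJ]
        refine (hacc c hcJ).mono ?_ ?_
        · intro x hx
          rw [Finset.mem_inter] at hx ⊢
          refine ⟨?_, hx.2⟩
          rcases Finset.mem_union.1 (hF1 hx.1) with h | h
          · exact h
          · exact absurd (Finset.mem_union_right _ (sc_sub_VJ hcJ hx.2))
              (Finset.disjoint_left.1 hY1 h)
        · exact Finset.union_subset_union (Finset.Subset.refl _) Finset.subset_union_left
      · rw [if_neg hcJ]
        exact Or.inl rfl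
    exact hbase.step I hl (mz m o zs a) hsubX (hF3 c hc)
  · intro x hx
    rw [Finset.mem_sdiff, Finset.mem_union, not_or] at hx
    rw [Finset.mem_sdiff]
    rcases Finset.mem_union.1 (hF1 hx.1) with h | h
    · exact ⟨h, hx.2.1⟩
    · exact absurd h hx.2.2
  · refine hF4.trans (Finset.union_subset_union (Finset.Subset.refl _) ?_)
    refine Finset.biUnion_mono fun c _ => Finset.subset_union_right
  · intro x hx
    obtain ⟨c, hc, hxc⟩ := Finset.mem_biUnion.1 hx
    refine Finset.mem_biUnion.2 ⟨c, hJ hc, Finset.mem_union_left _ ?_⟩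
    rw [if_pos hc]
    exact hxc

/-- Start of a phase. -/
theorem startR (hFIX : T_FIX) {p r t f l : ℕ} (I : Inst V M l)
    {A : Fin S → Set (V → Bool)} {W : Fin S → Finset V} {o : Fin S → V → Bool}
    {P : Fin S → Finset (Fin S)} {p5 : ℕ} (hp5 : p ≤ p5)
    (h5 : E5 I.sc p5 r l) (hl : 1 ≤ l) (hlr : 2 * l ≤ r)
    {m : Fin S → Finset V} {Z : Finset V} {σ : V → Bool} (hA : LinesR A W o m Z σ)
    {zs : V → Bool} {Fs : Finset V} {v : Fin S} (hG : GoodP I.sc r p t f W o P zs)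
    (hFs : Fs.card ≤ f) (hB : BaseR I.sc I.vio r A W o Z σ zs v Fs) :
    ∃ (u : ℕ → Fin S) (U : Finset (Fin S)) (F : Finset V) (J : Finset (Fin M)) (Y : Finset V)
      (Q : Fin M → Finset V),
      StR I.sc I.vio r (kap r l) l A W o m P Z σ zs Fs v 0 u U F J Y Q := by
  classical
  obtain ⟨hz, htow, J0, hc0, hclo0, hs0⟩ := hB
  have hsub : ({v} : Finset (Fin S)) ⊆ insert v (P v) := by
    intro x hx
    rw [Finset.mem_singleton.1 hx]
    exact Finset.mem_insert_self _ _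
  obtain ⟨J, hJ, hcov, hclo⟩ := mx V M r S I.sc (CW Fs W) (co Fs zs o) (insert v (P v)) zs J0
    (hc0.mono hsub)
  have hlt : J.card < p := hG Fs hFs v 0 (Nat.zero_le _) (v, insert v (P v)) (by simp [PS]) J hcov
  obtain ⟨F', Y', Q', h1, ht, h2, h3, h4, h5', h6, h7, h8, h9⟩ := coreR hFIX I h5 hl hlr hA
    (Fs := Fs) (F := Fs) (Y := ∅) (J := J0) (J' := J) (Q := fun _ => ∅) hz htow
    Finset.subset_union_left (Finset.empty_subset _) (by simp) hs0
    (fun c _ => Or.inl rfl)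
    (fun c hc => hclo0 v (Finset.mem_singleton_self _) c hc) hJ (hlt.le.trans hp5)
  refine ⟨fun _ => v, insert v (P v), F', J, Y', Q', ?_⟩
  refine ⟨by simp [PS], rfl, fun j hj => absurd hj (Nat.not_lt_zero _), h1, ht, hcov, hclo, h5', h2,
    h3, h4, h6, ?_⟩
  intro j _
  exact Finset.sdiff_subset.trans h8

/-- One step. -/
theorem stepR (hFIX : T_FIX) {p r t f l : ℕ} (I : Inst V M l)
    {A : Fin S → Set (V → Bool)} {W : Fin S → Finset V} {o : Fin S → V → Bool}
    {P : Fin S → Finset (Fin S)} {p5 : ℕ} (hp5 : p ≤ p5)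
    (h5 : E5 I.sc p5 r l) (hl : 1 ≤ l) (hlr : 2 * l ≤ r)
    {m : Fin S → Finset V} {Z : Finset V} {σ : V → Bool} (hA : LinesR A W o m Z σ)
    {zs : V → Bool} {Fs : Finset V} {v0 : Fin S} (hG : GoodP I.sc r p t f W o P zs)
    (hFs : Fs.card ≤ f) {i : ℕ} (hi : i + 1 ≤ t) {u : ℕ → Fin S} {U : Finset (Fin S)}
    {F : Finset V} {J : Finset (Fin M)} {Y : Finset V} {Q : Fin M → Finset V}
    (hS : StR I.sc I.vio r (kap r l) l A W o m P Z σ zs Fs v0 i u U F J Y Q)
    {a : Fin S} (ha : a ∈ P (u i)) (hz : flp zs F ∈ A a) :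
    ∃ (u : ℕ → Fin S) (U : Finset (Fin S)) (F : Finset V) (J : Finset (Fin M)) (Y : Finset V)
      (Q : Fin M → Finset V),
      StR I.sc I.vio r (kap r l) l A W o m P Z σ zs Fs v0 (i + 1) u U F J Y Q := by
  classical
  have haU : a ∈ U := PS_sub hS.path (Finset.mem_insert_of_mem ha)
  have hp1 : (a, U ∪ insert a (P a)) ∈ PS P v0 (i + 1) := by
    simp only [PS, Finset.mem_biUnion, Finset.mem_image]
    exact ⟨(u i, U), hS.path, a, ha, rfl⟩
  obtain ⟨J', hJ, hcov, hclo⟩ := mx V M r S I.sc (CW Fs W) (co Fs zs o) (U ∪ insert a (P a)) zs J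
    (hS.cov.mono Finset.subset_union_left)
  have hlt : J'.card < p := hG Fs hFs v0 (i + 1) hi _ hp1 J' hcov
  obtain ⟨F', Y', Q', h1, ht, h2, h3, h4, h5', h6, h7, h8, h9⟩ := coreR hFIX I h5 hl hlr hA
    (Fs := Fs) (F := F) (Y := Y) (J := J) (J' := J') (Q := Q) hz hS.tow hS.sub hS.YJ hS.Yc hS.sat
    hS.acc
    (fun c hc => hS.clo a haU c hc) hJ (hlt.le.trans hp5)
  have hu : ∀ j ≤ i, Function.update u (i + 1) a j = u j := fun j hj =>
    Function.update_of_ne (by omega) _ _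
  refine ⟨Function.update u (i + 1) a, U ∪ insert a (P a), F', J', Y', Q', ?_⟩
  refine ⟨by rw [Function.update_self]; exact hp1, by rw [hu 0 (Nat.zero_le _)]; exact hS.start,
    ?_, by rw [Function.update_self]; exact h1, ht, hcov, hclo, h5', h2, h3, h4, h6, ?_⟩
  · intro j hj
    rcases Nat.lt_or_eq_of_le (Nat.lt_succ_iff.1 hj) with hj' | hj'
    · rw [hu (j + 1) (by omega), hu j hj'.le]
      exact hS.step j hj'
    · subst hj'
      rw [Function.update_self, hu j le_rfl]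
      exact ha
  · intro j hj
    rcases Nat.lt_or_eq_of_le hj with hj' | hj'
    · rw [hu j (by omega)]
      exact h7.trans ((hS.keep j (by omega)).trans
        (Finset.union_subset_union (Finset.Subset.refl _) h9))
    · subst hj'
      rw [Function.update_self]
      exact Finset.sdiff_subset.trans h8

/-- End of a phase. -/
theorem baseR {r κ l : ℕ} {sc : Fin M → Finset V} {vio : Fin M → (V → Bool) → Prop}
    {A : Fin S → Set (V → Bool)} {W : Fin S → Finset V} {o : Fin S → V → Bool}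
    {m : Fin S → Finset V} {P : Fin S → Finset (Fin S)} {Z : Finset V} {σ zs : V → Bool}
    {Fs : Finset V} {v0 : Fin S} {i : ℕ} {u : ℕ → Fin S} {U : Finset (Fin S)}
    {F : Finset V} {J : Finset (Fin M)} {Y : Finset V} {Q : Fin M → Finset V}
    (hS : StR sc vio r κ l A W o m P Z σ zs Fs v0 i u U F J Y Q) :
    BaseR sc vio r A W o Z σ zs (u i) F := by
  obtain ⟨J0, hJ0, hcov, hmax⟩ := mx_sub (sc := sc) (r := r) (W := CW F W) (o := co F zs o)
    (U := {u i}) (z := zs) J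
  refine ⟨hS.mem, hS.tow, J0, hcov, ?_, fun c hc => hS.sat c (hJ0 hc)⟩
  intro u' hu' c hc
  rw [Finset.mem_singleton.1 hu']
  by_cases hcJ : c ∈ J
  · exact hmax (u i) (Finset.mem_singleton_self _) c hcJ hc
  · have h1 := hS.clo (u i) (PS_sub hS.path (Finset.mem_insert_self _ _)) c hcJ
    rw [ag_CW] at h1 ⊢
    refine h1.trans (Finset.card_le_card ?_)
    refine Finset.sdiff_subset_sdiff (Finset.Subset.refl _) ?_
    intro x hx
    rcases Finset.mem_union.1 hx with h | h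
    · rcases Finset.mem_union.1 h with h | h
      · exact Finset.mem_union_left _ (Finset.mem_union_left _ h)
      · rcases Finset.mem_union.1 (hS.sub h) with h | h
        · exact Finset.mem_union_left _ (Finset.mem_union_right _ h)
        · exact Finset.mem_union_right _ (hS.YJ h)
    · exact Finset.mem_union_right _ (VJ_mono hJ0 h)

/-- A state never sits at a line which follows from few clauses. -/
theorem leafR (hFIX : T_FIX) {p5 q r l : ℕ} (I : Inst V M l) {F0 : Finset (Clause V)}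
    {A : Fin S → Set (V → Bool)} {W : Fin S → Finset V} {o : Fin S → V → Bool}
    {P : Fin S → Finset (Fin S)} {E : Finset (V → Bool)}
    (h5 : E5 I.sc p5 r l) (hl : 1 ≤ l) (hlr : 2 * l ≤ r) (hq : q ≤ p5)
    {m : Fin S → Finset V} {Z : Finset V} {σ : V → Bool} (hA : LinesR A W o m Z σ)
    (hF0 : ∀ C ∈ F0, ∃ c, ∀ z, Falsified C z → I.vio c z)
    {zs : V → Bool} {Fs : Finset V} {v0 : Fin S} {i : ℕ}
    {u : ℕ → Fin S} {U : Finset (Fin S)}
    {F : Finset V} {J : Finset (Fin M)} {Y : Finset V} {Q : Fin M → Finset V}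
    (hS : StR I.sc I.vio r (kap r l) l A W o m P Z σ zs Fs v0 i u U F J Y Q)
    {Qc : Finset (Clause V)} (hQF : Qc ⊆ F0) (hQ : Qc.card ≤ q)
    (hfar : ∀ Y0 : Finset V, Y0.card ≤ kap r l * q → flp zs (F ∪ Y0) ∉ E)
    (h : ∀ z ∈ A (u i), z ∉ E → ∃ C ∈ Qc, Falsified C z) : False := by
  classical
  have hvU : u i ∈ U := PS_sub hS.path (Finset.mem_insert_self _ _)
  have : Nonempty (Fin M) := by
    obtain ⟨C, hC, -⟩ := h _ hS.mem (by simpa using hfar ∅ (by simp))
    exact ⟨(hF0 C (hQF hC)).choose⟩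
  choose! g hg using hF0
  have hNc : (Qc.image g \ J).card ≤ q :=
    (Finset.card_le_card Finset.sdiff_subset).trans (Finset.card_image_le.trans hQ)
  obtain ⟨Y0, hY1, hY2, hY3, hYt, hY4, hY5⟩ := repairR hFIX I h5 hl hlr hA (N := Qc.image g \ J)
    hS.mem hS.tow (hS.sub.trans (Finset.union_subset_union (Finset.Subset.refl _) hS.YJ)) hS.sat
    (fun c hc => hS.clo (u i) hvU c hc) Finset.sdiff_disjoint (hNc.trans hq)
  obtain ⟨C, hC, hfal⟩ := h _ hY3 (hfar Y0 (hY5.trans (Nat.mul_le_mul_left _ hNc)))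
  have hv := hg C (hQF hC) _ hfal
  refine hY4 (g C) ?_ hv
  by_cases hcJ : g C ∈ J
  · exact Finset.mem_union_left _ hcJ
  · exact Finset.mem_union_right _ (Finset.mem_sdiff.2 ⟨Finset.mem_image_of_mem _ hC, hcJ⟩)

end

end Pool.Agent.H78.UR
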