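import Pool.Agent.H79.UP.Phase
import Pool.Agent.H78.UR.Steps

/-! A whole phase. -/

set_option linter.unusedSectionVars false

namespace Pool.Agent.H78.UR

open Finset Pool.Agent.H78.UN Pool.Agent.H79.UP

section
variable {V : Type} [Fintype V] [DecidableEq V] {M S : ℕ}

theorem phaseR (hFIX : T_FIX) {p p5 r l t B q s f D : ℕ} (I : Inst V M l)
    {F0 : Finset (Clause V)} (h5 : E5 I.sc p5 r l) (hl : 1 ≤ l) (hlr : 2 * l ≤ r)
    (hp5 : p ≤ p5) (hq5 : q ≤ p5)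
    (hF0 : ∀ C ∈ F0, ∃ c, ∀ z, Falsified C z → I.vio c z) {Z : Finset V} {σ : V → Bool}
    (R : RDer F0 Z σ B q s D S)
    {zs : V → Bool} (hG : GoodP I.sc r p t f R.wt R.ot R.P zs)
    (hE : ∀ z, dis z zs ≤ f → ∀ u, z ∉ R.E u)
    {Fs : Finset V} {v0 : Fin S} (hB : BaseR I.sc I.vio r R.A R.wt R.ot Z σ zs v0 Fs)
    (hf : Fs.card + kap r l * p + kap r l * q ≤ f) : ∀ i ≤ t,
    ∃ (u : ℕ → Fin S) (U : Finset (Fin S)) (F : Finset V) (J : Finset (Fin M)) (Y : Finset V)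
      (Q : Fin M → Finset V),
      StR I.sc I.vio r (kap r l) l R.A R.wt R.ot R.mm R.P Z σ zs Fs v0 i u U F J Y Q := by
  have hFs : Fs.card ≤ f := by omega
  intro i
  induction i with
  | zero =>
    intro _
    exact startR hFIX I hp5 h5 hl hlr R.lines hG hFs hB
  | succ i ih =>
    intro hi
    obtain ⟨u, U, F, J, Y, Q, hS⟩ := ih (by omega)
    have hJ : J.card < p := hG Fs hFs v0 i (by omega) _ hS.path J hS.cov
    have hFc : F.card ≤ Fs.card + kap r l * p := by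
      refine (Finset.card_le_card hS.sub).trans ((Finset.card_union_le _ _).trans ?_)
      exact Nat.add_le_add_left (hS.Yc.trans (Nat.mul_le_mul_left _ hJ.le)) _
    have hfar : ∀ Y0 : Finset V, Y0.card ≤ kap r l * q → flp zs (F ∪ Y0) ∉ R.E (u i) := by
      intro Y0 hY0
      refine hE _ ((dis_flp _ _).trans ((Finset.card_union_le _ _).trans ?_)) _
      omega
    rcases R.rule (u i) with ⟨Qc, hQ1, hQ2, hQ3⟩ | hP
    · exact (leafR hFIX I h5 hl hlr hq5 R.lines hF0 hS hQ1 hQ2 hfar hQ3).elim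
    · obtain ⟨a, ha, hza⟩ := hP _ hS.mem (by simpa using hfar ∅ (by simp))
      exact stepR hFIX I hp5 h5 hl hlr R.lines hG hFs hi hS ha hza

theorem phase_endR (hFIX : T_FIX) {p p5 r l lam t B q s f b D : ℕ} (I : Inst V M l)
    {F0 : Finset (Clause V)} (h5 : E5 I.sc p5 r l) (h5' : E5 I.sc p r lam) (hl : 1 ≤ l)
    (hlr : 2 * l ≤ r) (hp5 : p ≤ p5) (hq5 : q ≤ p5)
    (hb : p * r + lam * f + p * (2 * l - 1) ≤ b * (2 * l - 1))
    (hF0 : ∀ C ∈ F0, ∃ c, ∀ z, Falsified C z → I.vio c z) {Z : Finset V} {σ : V → Bool}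
    (R : RDer F0 Z σ B q s D S)
    {zs : V → Bool} (hG : GoodP I.sc r p t f R.wt R.ot R.P zs)
    (hE : ∀ z, dis z zs ≤ f → ∀ u, z ∉ R.E u)
    {Fs : Finset V} {v0 : Fin S} (hB : BaseR I.sc I.vio r R.A R.wt R.ot Z σ zs v0 Fs)
    (hf : Fs.card + kap r l * p + kap r l * q ≤ f) :
    ∃ (v' : Fin S) (F' Y Bk : Finset V) (u : ℕ → Fin S),
      Ph (mz R.mm R.ot zs) R.P t (kap r l * p) b v0 v' Fs F' Y Bk u ∧
      BaseR I.sc I.vio r R.A R.wt R.ot Z σ zs v' F' := by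
  obtain ⟨u, U, F, J, Y, Q, hS⟩ := phaseR hFIX I h5 hl hlr hp5 hq5 hF0 R hG hE hB hf t le_rfl
  have hFs : Fs.card ≤ f := by omega
  have hJ : J.card < p := hG Fs hFs v0 t le_rfl _ hS.path J hS.cov
  have hY : Y.card ≤ kap r l * p := hS.Yc.trans (Nat.mul_le_mul_left _ hJ.le)
  refine ⟨u t, F, Y, J.biUnion Q, u, ⟨hS.start, rfl, hS.step, hS.sub, hY, ?_, hS.keep⟩, baseR hS⟩
  refine blk_card h5' hl hJ.le (X := Fs ∪ Y) ?_ hS.acc hb
  refine (Finset.card_union_le _ _).trans ?_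
  omega

end

end Pool.Agent.H78.UR
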