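import Pool.Agent.H78.UR.Final

/-!
# Derivations with little persistent memory: the definitions of the final statement
-/

namespace Pool.Agent.H78.UR

open Finset Pool.Agent.H78.UN

/-- The set `A` of assignments is monotone towards `o` in the variables of `W`, and it does not
depend on the other variables: if `z` is in `A` and `z'` is obtained from `z` by replacing the
values at some variables of `W` by those of `o`, and by changing the values of variables outside
`W` in any way, then `z'` is in `A`. -/
def Unate {V : Type} (A : Set (V → Bool)) (W : Finset V) (o : V → Bool) : Prop :=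
  ∀ z ∈ A, ∀ z' : V → Bool, (∀ x ∈ W, z' x = z x ∨ z' x = o x) → z' ∈ A

/-- `A` is the set of the 0/1 assignments which violate a linear inequality `∑ x, a x * x ≥ b`
in the variables `W`, and `o` gives the signs of its coefficients: `o x` is the value of `x` which
makes the left side smaller. -/
def Ineq {V : Type} [Fintype V] (A : Set (V → Bool)) (W : Finset V) (o : V → Bool) : Prop :=
  ∃ (a : V → ℝ) (b : ℝ), (∀ x, x ∉ W → a x = 0) ∧ (∀ x, a x < 0 → o x = true) ∧
    (∀ x, 0 < a x → o x = false) ∧ A = {z | ∑ x, (if z x = true then a x else 0) < b}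

/-- A semantic dag-like derivation from the CNF formula `F` with `S` lines. Here `Z` is a set of
variables and `σ` is an assignment.

* `A v` is the set of the assignments which falsify line `v`.
* `W v` contains the variables of line `v`, and the line is monotone in each of them: `o v x` is
  the value of `x ∈ W v` which helps to falsify the line. The pairs `(x, o v x)` with `x ∈ W v`
  are called the literals of line `v`.
* `rigid`: the literal `(x, o v x)` of line `v` is free if `x ∈ Z` and `o v x ≠ σ x`; then every
  assignment which falsifies line `v` has the value `o v x` at `x` (as in a clause).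
* `E v` is a set of assignments which are ignored when line `v` is inferred (brute force).
* `P v` is the set of the premises of line `v`: at most `B` earlier lines; every line can be used
  many times.
* `rule`: outside `E v`, line `v` either follows from at most `q` clauses of `F`, or it follows
  from its premises.
* `pers`: if `u 0, …, u D` are consecutive lines on a path (each one is a premise of the one
  before), then at most `s` literals which are not free belong to all of them. -/
structure Der {V : Type} [Fintype V] [DecidableEq V] (F : Finset (Clause V)) (Z : Finset V)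
    (σ : V → Bool) (B q s D S : ℕ) where
  A : Fin S → Set (V → Bool)
  W : Fin S → Finset V
  o : Fin S → V → Bool
  line : ∀ v, Unate (A v) (W v) (o v) ∨ Ineq (A v) (W v) (o v)
  rigid : ∀ v, ∀ x ∈ W v, x ∈ Z → o v x ≠ σ x → ∀ z ∈ A v, z x = o v x
  E : Fin S → Finset (V → Bool)
  P : Fin S → Finset (Fin S)
  prem : ∀ v, (P v).card ≤ B ∧ ∀ a ∈ P v, a < v
  rule : ∀ v,
    (∃ Q : Finset (Clause V), Q ⊆ F ∧ Q.card ≤ q ∧
      ∀ z ∈ A v, z ∉ E v → ∃ C ∈ Q, Falsified C z) ∨
    (∀ z ∈ A v, z ∉ E v → ∃ a ∈ P v, z ∈ A a)
  pers : ∀ u : ℕ → Fin S, (∀ i < D, u (i + 1) ∈ P (u i)) → ∀ X : Finset V,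
    (∀ i ≤ D, ∀ x ∈ X, x ∈ W (u i) ∧ o (u i) x = o (u 0) x ∧ (x ∈ Z → o (u i) x = σ x)) →
    X.card ≤ s

/-- The cost of a derivation: the number of lines plus the number of assignments treated by brute
force. -/
def Der.cost {V : Type} [Fintype V] [DecidableEq V] {F : Finset (Clause V)} {Z : Finset V}
    {σ : V → Bool} {B q s D S : ℕ} (R : Der F Z σ B q s D S) : ℕ := S + ∑ v, (R.E v).card

/-- Linear inequalities are unate. -/
theorem Ineq.unate {V : Type} [Fintype V] {A : Set (V → Bool)} {W : Finset V} {o : V → Bool}
    (h : Ineq A W o) : Unate A W o := by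
  obtain ⟨a, b, ha, ho1, ho2, rfl⟩ := h
  intro z hz z' hz'
  have hz2 : ∑ x, (if z x = true then a x else 0) < b := hz
  show ∑ x, (if z' x = true then a x else 0) < b
  refine lt_of_le_of_lt (Finset.sum_le_sum fun x _ => ?_) hz2
  by_cases hx : x ∈ W
  · rcases hz' x hx with h | h
    · rw [h]
    · rw [h]
      rcases lt_trichotomy (a x) 0 with hn | hn | hn
      · rw [ho1 x hn, if_pos rfl]
        split_ifs
        · exact le_refl _
        · exact hn.le
      · simp [hn]
      · rw [ho2 x hn]
        simp only [Bool.false_eq_true, if_false]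
        split_ifs
        · exact hn.le
        · exact le_refl _
  · simp [ha x hx]

open Classical in
/-- The final statement. -/
theorem final : ∀ ε : ℝ, 0 < ε → ∃ K n₀ : ℕ, ∀ n, n₀ ≤ n → ∀ w : ℕ,
    K * Nat.log 2 n ≤ w → K * w ≤ n →
    ∃ F : Finset (Clause (Fin n)), (∀ C ∈ F, C.card = w) ∧
      (F.card : ℝ) ≤ (2 : ℝ) ^ ((1 + ε) * w) ∧
      (∀ z, ∃ C ∈ F, Falsified C z) ∧
      (∀ z, (1 - ε) * F.card ≤ 2 ^ w * (F.filter (fun C => Falsified C z)).card) ∧
      ∀ B q s D S : ℕ, 2 ≤ B → K * q ≤ n → K * s ≤ n → K * Nat.log 2 B ≤ w →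
        K * (D * Nat.log 2 B) ≤ n * w →
        ∀ (Z : Finset (Fin n)) (σ : Fin n → Bool) (R : Der F Z σ B q s D S),
          (R.cost : ℝ) < (2 : ℝ) ^ ((1 - ε) * n) → ∀ v,
            ((Finset.univ.filter (fun z => z ∈ R.A v)).card : ℝ) ≤
              (2 : ℝ) ^ (n - (1 - ε) * w) := by
  intro ε hε
  obtain ⟨K, n₀, h⟩ := main ε hε
  refine ⟨K, n₀, ?_⟩
  intro n hn w hw1 hw2
  obtain ⟨F, hF1, hF2, hF3, hF4, hF5⟩ := h n hn w hw1 hw2
  refine ⟨F, hF1, hF2, hF3, hF4, ?_⟩
  intro B q s D S hB hq hs hBw hD Z σ R hcost v
  exact hF5 B q s D S hB hq hs hBw hD Z σ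
    { A := R.A, W := R.W, o := R.o, unate := fun v => (R.line v).elim id Ineq.unate,
      rigid := R.rigid, E := R.E, P := R.P, prem := R.prem, rule := R.rule, pers := R.pers }
    hcost v

end Pool.Agent.H78.UR
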