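import Pool.Agent.H78.UR.Final
import Pool.Agent.H78.UR.Lang

/-!
# Derivations with little persistent memory: proof of the final statement
-/

namespace Pool.Agent.H78.UR.Lang

open Finset

/-- Linear inequalities are unate. -/
theorem Ineq.unate {V : Type} [Fintype V] {A : Set (V → Bool)} {W : Finset V} {o : V → Bool}
    (h : Ineq A W o) : Unate A W o := by
  obtain ⟨a, b, ha, ho1, ho2, rfl⟩ := h
  intro z hz z' hz'
  have hz2 : ∑ x, (if z x = true then a x else 0) < b := hz
  show ∑ x, (if z' x = true then a x else 0) < b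
  refine lt_of_le_of_lt (Finset.sum_le_sum fun x _ => ?_) hz2
  by_cases hx : x ∈ W
  · rcases hz' x hx with h | h
    · rw [h]
    · rw [h]
      rcases lt_trichotomy (a x) 0 with hn | hn | hn
      · rw [ho1 x hn, if_pos rfl]
        split_ifs
        · exact le_refl _
        · exact hn.le
      · simp [hn]
      · rw [ho2 x hn]
        simp only [Bool.false_eq_true, if_false]
        split_ifs
        · exact hn.le
        · exact le_refl _
  · simp [ha x hx]

/-- The final statement. -/
theorem final : ∀ ε : ℝ, 0 < ε → ∃ K n₀ : ℕ, ∀ n, n₀ ≤ n → ∀ w : ℕ,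
    K * Nat.log 2 n ≤ w → K * w ≤ n →
    ∃ F : Finset (Clause (Fin n)), (∀ C ∈ F, C.card = w) ∧
      (F.card : ℝ) ≤ (2 : ℝ) ^ ((1 + ε) * w) ∧
      (∀ z, ∃ C ∈ F, Falsified C z) ∧
      (∀ z, (1 - ε) * F.card ≤ 2 ^ w * (Set.ncard {C | C ∈ F ∧ Falsified C z} : ℝ)) ∧
      ∀ B q s D S : ℕ, 2 ≤ B → K * q ≤ n → K * s ≤ n → K * Nat.log 2 B ≤ w →
        K * (D * Nat.log 2 B) ≤ n * w →
        ∀ (Z : Finset (Fin n)) (σ : Fin n → Bool) (R : Der F Z σ B q s D S),
          (R.cost : ℝ) < (2 : ℝ) ^ ((1 - ε) * n) →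
          ∀ v, (Set.ncard (R.A v) : ℝ) ≤ (2 : ℝ) ^ (n - (1 - ε) * w) := by
  classical
  intro ε hε
  obtain ⟨K, n₀, h⟩ := main ε hε
  refine ⟨K, n₀, ?_⟩
  intro n hn w hw1 hw2
  obtain ⟨F, hF1, hF2, hF3, hF4, hF5⟩ := h n hn w hw1 hw2
  refine ⟨F, hF1, hF2, hF3, ?_, ?_⟩
  · intro z
    have h1 : Set.ncard {C | C ∈ F ∧ Falsified C z} =
        (F.filter (fun C => Pool.Agent.H78.UN.Falsified C z)).card := by
      rw [← Set.ncard_coe_finset]
      congr 1
      ext C
      simp only [Finset.coe_filter, Set.mem_ofPred_eq]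
      exact Iff.rfl
    rw [h1]
    exact hF4 z
  · intro B q s D S hB hq hs hBw hD Z σ R hcost v
    have h1 := hF5 B q s D S hB hq hs hBw hD Z σ
      { A := R.A, W := R.W, o := R.o, unate := fun v => (R.line v).elim id Ineq.unate,
        rigid := R.rigid, E := R.E, P := R.P, prem := R.prem, rule := R.rule,
        pers := by
          intro u hu X hX
          refine le_trans ?_ (R.pers u hu)
          rw [← Set.ncard_coe_finset]
          refine Set.ncard_le_ncard ?_ (Set.toFinite _)
          intro x hx i hi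
          exact hX i hi x hx }
      hcost v
    have h2 : Set.ncard (R.A v) =
        (Finset.univ.filter (fun z => z ∈ R.A v)).card := by
      rw [← Set.ncard_coe_finset]
      congr 1
      ext z
      simp
    rw [h2]
    exact h1

end Pool.Agent.H78.UR.Lang
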